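import Mathlib

open Filter Topology

namespace Pool.Agent.Results.MP_e9a5a5_pr.Fixed

theorem result (F : ℝ → ℝ) (h0 : ∀ x, 0 ≤ F x) (h1 : ∀ x, F x ≤ 1) (hb : Tendsto F atBot (𝓝 0))
    (h : ∀ x, (1 - (1 - (F (x - 2) + F x) / 2) ^ 2 / 2 - (1 - (F x + F (x + 2)) / 2) ^ 2 / 2) ^ 2 = F x)
    (x : ℝ) : F (x + 2) = 2 * √(F x) - F x := by
  let m : ℝ → ℝ := fun x => (F x + F (x + 2)) / 2
  have m0 : ∀ x, 0 ≤ m x := fun x => by have := h0 x; have := h0 (x + 2); positivity
  have m1 : ∀ x, m x ≤ 1 := fun x => by simp only [m]; linarith [h1 x, h1 (x + 2)]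
  have v1 : ∀ x, √(F x) ≤ 1 := fun x => Real.sqrt_le_one.2 (h1 x)
  have key : ∀ x, (m (x + 2) - √(F (x + 2))) * (2 - √(F (x + 2)) - m (x + 2)) =
      (m x - √(F x)) * (m x + √(F x)) := fun x => by
    have e : √(F (x + 2)) = 1 - (1 - m x) ^ 2 / 2 - (1 - m (x + 2)) ^ 2 / 2 := by
      have t := h (x + 2)
      rw [add_sub_cancel_right] at t
      rw [← t]
      exact Real.sqrt_sq (show 0 ≤ 1 - (1 - m x) ^ 2 / 2 - (1 - m (x + 2)) ^ 2 / 2 by
        nlinarith [m0 x, m1 x, m0 (x + 2), m1 (x + 2)])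
    have a := Real.sq_sqrt (h0 x)
    have b := Real.sq_sqrt (h0 (x + 2))
    have c : 2 * m x = F x + F (x + 2) := by simp only [m]; ring
    nlinarith
  obtain ⟨y, hy⟩ := eventually_atBot.1 (hb.eventually (gt_mem_nhds (show (0 : ℝ) < 1 / 16 by norm_num)))
  have s : ∀ x ≤ y - 2, m x + √(F x) ≤ 1 / 2 := fun x l => by
    have := Real.sqrt_le_iff.2 ⟨show (0 : ℝ) ≤ 1 / 4 by norm_num, show F x ≤ (1 / 4) ^ 2 by
      linarith [hy x (by linarith)]⟩
    simp only [m]; linarith [hy x (by linarith), hy (x + 2) (by linarith)]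
  have half : ∀ n : ℕ, ∀ x ≤ y - 2, |m x - √(F x)| ≤ (1 / 2) ^ n := fun n => by
    induction n with
    | zero => exact fun x _ => abs_le.2 ⟨by linarith [m0 x, v1 x], by linarith [m1 x, Real.sqrt_nonneg (F x)]⟩
    | succ n ih =>
      intro x l
      have k := congrArg abs (key (x - 2))
      rw [sub_add_cancel, abs_mul, abs_mul, abs_of_nonneg (show 0 ≤ 2 - √(F x) - m x by
        linarith [s x l]), abs_of_nonneg (add_nonneg (m0 _) (Real.sqrt_nonneg _))] at k
      have := ih (x - 2) (by linarith)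
      have := s (x - 2) (by linarith)
      have := s x l
      have := abs_nonneg (m x - √(F x))
      have := abs_nonneg (m (x - 2) - √(F (x - 2)))
      rw [pow_succ]
      nlinarith
  have up : ∀ n : ℕ, ∀ x ≤ y - 2 + 2 * n, m x = √(F x) := fun n => by
    induction n with
    | zero => exact fun x l => sub_eq_zero.1 (abs_nonpos_iff.1 (ge_of_tendsto'
        (tendsto_pow_atTop_nhds_zero_of_lt_one (by norm_num) one_half_lt_one)
        fun n => half n x (by simpa using l)))
    | succ n ih =>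
      intro x l
      have k := key (x - 2)
      rw [ih (x - 2) (by push_cast at l; linarith), sub_self, zero_mul, sub_add_cancel] at k
      rcases mul_eq_zero.1 k with k | k <;> linarith [m1 x, v1 x]
  obtain ⟨n, hn⟩ := exists_nat_ge (x - y + 2)
  have := up n x (by linarith [n.cast_nonneg (α := ℝ)])
  simp only [m] at this
  linarith

end Pool.Agent.Results.MP_e9a5a5_pr.Fixed
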